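import Pool.Agent.helper76.FF2.Spec

/-! # Project FF2, row CMP: comparison of the numbers of irreducible factors -/

set_option autoImplicit false

namespace Pool.Agent.FF2

open Polynomial

theorem CMP_hmap {R S : Type*} [CommRing R] [CommRing S] (f : R →+* S) (k : ℕ) (p : R[X]) :
    hasseDeriv k (p.map f) = (hasseDeriv k p).map f := by
  ext n
  rw [hasseDeriv_coeff, coeff_map, coeff_map, hasseDeriv_coeff, map_mul, map_natCast]

theorem CMP_d4 {F : Type*} [Field F] [CharP F 2] (w : F[X]) : derivative (w ^ 4) = 0 := by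
  rw [derivative_pow]
  have h : ((4 : ℕ) : F) = 0 := by
    rw [CharP.cast_eq_zero_iff F 2]
    norm_num
  rw [h, C_0, zero_mul, zero_mul]

theorem CMP_sqf {F : Type*} [Field F] [CharP F 2] {A D s w G : F[X]} (hA : derivative A = D)
    (e : A + w ^ 4 = s * G) (hc : IsCoprime G D) : Squarefree G := by
  intro x hx
  have h1 : x ∣ G := (dvd_mul_right x x).trans hx
  have h2 : x ∣ derivative G := by
    obtain ⟨k, hk⟩ := hx
    rw [hk, mul_assoc, derivative_mul, derivative_mul]
    exact dvd_add (dvd_mul_of_dvd_right (dvd_mul_right x k) _)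
      (dvd_mul_right x _)
  have h3 : D = derivative s * G + s * derivative G := by
    rw [← derivative_mul, ← e, derivative_add, CMP_d4, add_zero, hA]
  have h4 : x ∣ D := by
    rw [h3]
    exact dvd_add (dvd_mul_of_dvd_right h1 _) (dvd_mul_of_dvd_right h2 _)
  exact hc.isUnit_of_dvd' h1 h4

theorem CMP_ne {F K : Type*} [Field F] [Field K] [Algebra F K] {G H : F[X]} (hc : IsCoprime G H)
    {b : K} (hb : aeval b G = 0) : aeval b H ≠ 0 := by
  intro h
  obtain ⟨u, v, huv⟩ := hc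
  have h1 := congrArg (aeval b) huv
  rw [map_add, map_mul, map_mul, hb, h, mul_zero, mul_zero, add_zero, map_one] at h1
  exact zero_ne_one h1

theorem CMP (F : Type*) [Field F] [Fintype F] [CharP F 2] (h1 : BT0_stmt (AlgebraicClosure F))
    (h2 : RTS_stmt F) (h3 : SGN_stmt F) (h4 : COR_stmt (AlgebraicClosure F)) : CMP_stmt F := by
  intro m hm A P E s w₁ w₂ G₁ G₂ hPm hPi hEm hsm hA hPE hPs hP4 hdeg e1 e2 hG1m hG2m hGG hbig
    hw1 hw2 c1E c1s c2E c2s hmod
  obtain ⟨b1, b2, b3, b4, b5, b6⟩ := h1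
  obtain ⟨r1, r2, r3, r4, r5⟩ := h2
  have hPA : P ∣ A := by
    have h5 : P ∣ A + P ^ 2 + P ^ 3 := (dvd_pow_self P (by norm_num)).trans hP4
    rw [add_assoc] at h5
    exact (dvd_add_left (dvd_add (dvd_pow_self P (by norm_num)) (dvd_pow_self P (by norm_num)))).mp h5
  have hcP : ∀ (w G : F[X]), A + w ^ 4 = s * G → ¬ P ∣ w → IsCoprime P G := by
    intro w G e hw
    rw [hPi.coprime_iff_not_dvd]
    intro hG
    apply hw
    have h5 : P ∣ w ^ 4 := by
      rw [← dvd_add_right hPA, e]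
      exact dvd_mul_of_dvd_right hG _
    exact hPi.prime.dvd_of_dvd_pow h5
  have hcw : ∀ w : F[X], ¬ P ∣ w → IsCoprime P w := fun w hw => hPi.coprime_iff_not_dvd.mpr hw
  have cP1 := hcP w₁ G₁ e1 hw1
  have cP2 := hcP w₂ G₂ e2 hw2
  have sq1 : Squarefree G₁ := CMP_sqf hA e1 ((cP1.symm.mul_right c1E).pow_right)
  have sq2 : Squarefree G₂ := CMP_sqf hA e2 ((cP2.symm.mul_right c2E).pow_right)
  have sqP : Squarefree P := hPi.squarefree
  have hPr := r2 P hPm.ne_zero
  have hG1r := r2 G₁ hG1m.ne_zero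
  have hG2r := r2 G₂ hG2m.ne_zero
  obtain ⟨kP, mP⟩ := r1 P hPm sqP
  obtain ⟨k1, m1⟩ := r1 G₁ hG1m sq1
  obtain ⟨k2, m2⟩ := r1 G₂ hG2m sq2
  set φ := algebraMap F (AlgebraicClosure F) with hφ
  have hev : ∀ (b : AlgebraicClosure F) (p : F[X]), (p.map φ).eval b = aeval b p := fun b p => by
    rw [eval_map_algebraMap]
  have hsit : Sit (A.map φ) (E.map φ) (s.map φ) (w₁.map φ) (w₂.map φ) (rs P) (rs G₁) (rs G₂) := by
    refine ⟨hEm.map φ, hsm.map φ, ?_, ?_, ?_, ?_, ?_, ?_, ?_, ?_, ?_, ?_, ?_, ?_, ?_, ?_⟩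
    · rw [← mP, derivative_map, hA, Polynomial.map_pow, Polynomial.map_mul]
    · intro b hb
      rw [hev]
      exact CMP_ne hPE ((hPr b).mp hb)
    · intro b hb
      rw [hev]
      exact CMP_ne hPs ((hPr b).mp hb)
    · rw [← mP, ← Polynomial.map_pow, ← Polynomial.map_pow, ← Polynomial.map_pow, ← Polynomial.map_add,
        ← Polynomial.map_add]
      exact Polynomial.map_dvd φ hP4
    · rw [CMP_hmap, natDegree_map, derivative_map, natDegree_map]
      exact hdeg
    · rw [← m1, ← Polynomial.map_pow, ← Polynomial.map_add, ← Polynomial.map_mul, e1]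
    · rw [← m2, ← Polynomial.map_pow, ← Polynomial.map_add, ← Polynomial.map_mul, e2]
    · rw [k1, k2, hGG]
    · rw [k1, natDegree_map, natDegree_map]
      exact hbig
    · intro b hb
      rw [hev]
      exact CMP_ne (hcw w₁ hw1) ((hPr b).mp hb)
    · intro b hb
      rw [hev]
      exact CMP_ne (hcw w₂ hw2) ((hPr b).mp hb)
    · intro x hx
      rw [hev, hev]
      refine ⟨?_, CMP_ne c1E ((hG1r x).mp hx), CMP_ne c1s ((hG1r x).mp hx)⟩
      intro hb
      exact CMP_ne cP1 ((hPr x).mp hb) ((hG1r x).mp hx)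
    · intro x hx
      rw [hev, hev]
      refine ⟨?_, CMP_ne c2E ((hG2r x).mp hx), CMP_ne c2s ((hG2r x).mp hx)⟩
      intro hb
      exact CMP_ne cP2 ((hPr x).mp hb) ((hG2r x).mp hx)
    · rw [← m1, ← m2, ← Polynomial.map_pow, ← Polynomial.map_mul, ← Polynomial.map_pow,
        ← Polynomial.map_sub]
      exact Polynomial.map_dvd φ hmod
  have hcor := h4 _ _ _ _ _ _ _ _ hsit
  simp only [hev] at hcor
  set v : AlgebraicClosure F := ∑ b ∈ rs P, b * (derivative (pol (rs P))).eval b *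
    (1 / aeval b w₁ ^ 4 + 1 / aeval b w₂ ^ 4) with hv
  have hadd : ∀ x y : AlgebraicClosure F, (x + y) ^ Fintype.card F = x ^ Fintype.card F + y ^ Fintype.card F := by
    intro x y
    rw [hm, add_pow_char_pow]
  have hfr : ∀ (x : AlgebraicClosure F) (p : F[X]), aeval (x ^ Fintype.card F) p = aeval x p ^ Fintype.card F := by
    intro x p
    have h5 := helper36.FF.aeval_pow_card p x 1
    rwa [pow_one] at h5
  have hvq : v ^ Fintype.card F = v := by
    apply r4
    intro x _
    rw [← mP, derivative_map, hev, hev, hfr, hfr, hfr, mul_pow, mul_pow, hadd, div_pow, div_pow, one_pow]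
    simp only [← pow_mul, mul_comm]
  have hv0 : bt m (v ^ 2 + v) = 0 := by
    rw [b3, ← hm, hvq]
    exact CharTwo.add_self_eq_zero v
  have hs1 := h3 m hm G₁ hG1m sq1
  have hs2 := h3 m hm G₂ hG2m sq2
  have h5 := congrArg (bt m) hcor
  rw [b1, b1, hv0, zero_add, hs1, hs2, hGG] at h5
  rw [← h5]
  have h6 : (G₂.natDegree : AlgebraicClosure F) + (G₂.natDegree : AlgebraicClosure F) = 0 :=
    CharTwo.add_self_eq_zero _
  linear_combination -h6

end Pool.Agent.FF2
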